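import Pool.Agent.Lib.MP_2e24f1_ag_h13.ResultsDec

/-!
All Schur forms of a hermitian holomorphic bundle with decomposably semipositive Chern curvature
(a Nakano semipositive tensor plus a dual Nakano semipositive tensor) are positive.
-/

namespace Pool.Agent.Results.MP_2e24f1_ag.DecomposableCurvature

open Pool.Agent.MP2e24f1

/-- Let `(E, h)` be a hermitian holomorphic bundle of rank `r` over an open subset `U` of `ℂ^d`
whose Chern curvature is decomposably semipositive at every point of `U`. Then every nonnegative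
combination of the Schur forms `S_σ(c_•(E,h))`, `σ ∈ Λ(k, r)`, is a positive `(k,k)`-form. -/
theorem result : ∀ (d r k : ℕ) (U : Set (Fin d → ℂ))
    (h : (Fin d → ℂ) → Matrix (Fin r) (Fin r) ℂ),
    IsOpen U → IsHermitianMetric U h → (∀ x ∈ U, DecomposablySemipositiveAt h x) →
    ∀ (T : Finset (Fin k → ℕ)) (a : (Fin k → ℕ) → ℝ),
      (∀ σ ∈ T, σ ∈ Lam k r ∧ 0 ≤ a σ) →
    ∀ x ∈ U, IsPositiveForm k (∑ σ ∈ T, (a σ : ℂ) • schurForm (curvature h x) σ) :=
  decomposable_schur

end Pool.Agent.Results.MP_2e24f1_ag.DecomposableCurvature
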