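import Pool.Agent.Lib.MP_2e24f1_ag.Results

/-!
All positive polynomials of degree at most three, and all hooks with first part at most three, give
positive forms on Griffiths semipositive bundles of any rank.
-/

namespace Pool.Agent.Results.MP_2e24f1_ag.HooksAndDegreeThree

open Pool.Agent.MP2e24f1

/-- Let `(E, h)` be a Griffiths semipositive hermitian holomorphic bundle of rank `r` over an open
subset `U` of `ℂ^d`. Then a nonnegative combination of Schur forms `S_σ(c_•(E,h))`, `σ ∈ Λ(k, r)`, is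
a positive `(k,k)`-form as soon as `k ≤ 3`, or every `σ` is a hook `(a, 1, …, 1, 0, …, 0)` with
`a ≤ 3`. -/
theorem result : ∀ (d r k : ℕ) (U : Set (Fin d → ℂ))
    (h : (Fin d → ℂ) → Matrix (Fin r) (Fin r) ℂ),
    IsOpen U → IsHermitianMetric U h → (∀ x ∈ U, GriffithsSemipositiveAt h x) →
    ∀ (T : Finset (Fin k → ℕ)) (a : (Fin k → ℕ) → ℝ),
      (∀ σ ∈ T, σ ∈ Lam k r ∧ 0 ≤ a σ ∧ (k ≤ 3 ∨ ∀ i, σ i ≤ if (i : ℕ) = 0 then 3 else 1)) →
    ∀ x ∈ U, IsPositiveForm k (∑ σ ∈ T, (a σ : ℂ) • schurForm (curvature h x) σ) :=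
  hooks_and_degree_three

end Pool.Agent.Results.MP_2e24f1_ag.HooksAndDegreeThree
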