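import Pool.Agent.Lib.GS4.FI

/-!
All positive polynomials of degree at most four give positive forms on Griffiths semipositive
bundles that are orthogonal sums of bundles of rank at most three.
-/

namespace Pool.Agent.Results.MP_2e24f1_ag.OrthogonalSums

open Pool.Agent.MP2e24f1

/-- Let `(E, h)` be a Griffiths semipositive hermitian holomorphic bundle of rank `r` over an open
subset `U` of `ℂ^d`, which is an orthogonal sum of bundles of rank at most three: the members
`e_a` of the frame carry labels `b a`, at most three of them have the same label, and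
`h_ac = ⟨e_a, e_c⟩ = 0` on `U` if `b a ≠ b c`. Then, for `k ≤ 4`, every nonnegative combination of
the Schur forms `S_σ(c_•(E,h))`, `σ ∈ Λ(k, r)`, is a positive `(k,k)`-form at each point of `U`. -/
theorem result : ∀ (d r k : ℕ) (U : Set (Fin d → ℂ))
    (h : (Fin d → ℂ) → Matrix (Fin r) (Fin r) ℂ),
    IsOpen U → IsHermitianMetric U h → (∀ x ∈ U, GriffithsSemipositiveAt h x) →
    ∀ b : Fin r → ℕ, (∀ x ∈ U, ∀ a c, b a ≠ b c → h x a c = 0) →
      (∀ a, (Finset.univ.filter fun c => b c = b a).card ≤ 3) → k ≤ 4 →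
    ∀ (T : Finset (Fin k → ℕ)) (a : (Fin k → ℕ) → ℝ), (∀ σ ∈ T, σ ∈ Lam k r ∧ 0 ≤ a σ) →
    ∀ x ∈ U, IsPositiveForm k (∑ σ ∈ T, (a σ : ℂ) • schurForm (curvature h x) σ) :=
  Pool.Agent.Lib.GS4.orthogonal_sums

end Pool.Agent.Results.MP_2e24f1_ag.OrthogonalSums
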