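import Pool.Agent.Lib.MP_2e24f1_ag.Results

/-!
Schur forms with all parts at most two of a Griffiths semipositive bundle are positive.
In rank at most two these are all the Schur forms.
-/

namespace Pool.Agent.Results.MP_2e24f1_ag.PartsAtMostTwo

open Pool.Agent.MP2e24f1

/-- Let `(E, h)` be a Griffiths semipositive hermitian holomorphic bundle of rank `r` over an open
subset `U` of `ℂ^d`. Then every nonnegative combination of the Schur forms `S_σ(c_•(E,h))`, where
`σ ∈ Λ(k, r)` has all its parts at most two, is a positive `(k,k)`-form. -/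
theorem result : ∀ (d r k : ℕ) (U : Set (Fin d → ℂ))
    (h : (Fin d → ℂ) → Matrix (Fin r) (Fin r) ℂ),
    IsOpen U → IsHermitianMetric U h → (∀ x ∈ U, GriffithsSemipositiveAt h x) →
    ∀ (T : Finset (Fin k → ℕ)) (a : (Fin k → ℕ) → ℝ),
      (∀ σ ∈ T, σ ∈ Lam k r ∧ 0 ≤ a σ ∧ ∀ i, σ i ≤ 2) →
    ∀ x ∈ U, IsPositiveForm k (∑ σ ∈ T, (a σ : ℂ) • schurForm (curvature h x) σ) :=
  parts_at_most_two

end Pool.Agent.Results.MP_2e24f1_ag.PartsAtMostTwo
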